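import Mathlib

/-!
# Ortholattices, orthomodular lattices, terms in negation normal form
-/

namespace Pool.Agent.Lib.MP_638764_al

universe u v

/-- An ortholattice: a bounded lattice with an orthocomplementation `oc`. -/
class OrthoLattice (L : Type u) extends Lattice L, BoundedOrder L where
  /-- the orthocomplement -/
  oc : L → L
  oc_oc : ∀ a : L, oc (oc a) = a
  oc_anti : ∀ a b : L, a ≤ b → oc b ≤ oc a
  inf_oc : ∀ a : L, a ⊓ oc a = ⊥
  sup_oc : ∀ a : L, a ⊔ oc a = ⊤

export OrthoLattice (oc oc_oc oc_anti inf_oc sup_oc)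

/-- An ortholattice is an orthomodular lattice if `a ≤ b` implies `b = a ⊔ (a' ⊓ b)`. -/
def IsOML (L : Type u) [OrthoLattice L] : Prop := ∀ a b : L, a ≤ b → b = a ⊔ (oc a ⊓ b)

/-- Terms in negation normal form: complements only of variables. -/
inductive Nnf : Type
  | pos (n : ℕ) : Nnf
  | neg (n : ℕ) : Nnf
  | zero : Nnf
  | one : Nnf
  | join (s t : Nnf) : Nnf
  | meet (s t : Nnf) : Nnf

/-- The value of a term in negation normal form. -/
def Nnf.eval {L : Type u} [OrthoLattice L] (x : ℕ → L) : Nnf → L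
  | .pos n => x n
  | .neg n => oc (x n)
  | .zero => ⊥
  | .one => ⊤
  | .join s t => s.eval x ⊔ t.eval x
  | .meet s t => s.eval x ⊓ t.eval x

/-- The pairs `(a, b)` such that the join of `a` and `b` is a subterm. -/
def Nnf.joins : Nnf → List (Nnf × Nnf)
  | .join s t => (s, t) :: (s.joins ++ t.joins)
  | .meet s t => s.joins ++ t.joins
  | _ => []

/-- No join in `t` is orthogonal: for every subterm `a ∨ b` of `t`, the inequality `a ≤ b'` fails in some ortholattice,
or one of `a`, `b` is `0` in every ortholattice, or `a ∨ b` is `1` in every finite orthomodular lattice. -/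
def Nnf.NoOrthogonalJoin (t : Nnf) : Prop :=
  ∀ p ∈ t.joins,
    (∃ (L : Type u) (_ : OrthoLattice L) (x : ℕ → L), ¬ p.1.eval x ≤ oc (p.2.eval x)) ∨
    (∀ (L : Type u) [OrthoLattice L] (x : ℕ → L), p.1.eval x = ⊥) ∨
    (∀ (L : Type u) [OrthoLattice L] (x : ℕ → L), p.2.eval x = ⊥) ∨
    (∀ (N : Type) [OrthoLattice N] [Finite N], IsOML N →
      ∀ x : ℕ → N, p.1.eval x ⊔ p.2.eval x = ⊤)

end Pool.Agent.Lib.MP_638764_al
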