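import Pool.Agent.Lib.MP_638764_al.Defs

/-!
# The gap construction
-/

namespace Pool.Agent.Lib.MP_638764_al

universe u v

section Basic

variable {L : Type u} [OrthoLattice L]

lemma le_oc_symm {a b : L} (h : a ≤ oc b) : b ≤ oc a := by
  have := oc_anti _ _ h
  rwa [oc_oc] at this

lemma eq_bot_of_le_oc {a : L} (h : a ≤ oc a) : a = ⊥ := by
  rw [← inf_oc a]
  exact (inf_eq_left.mpr h).symm

lemma oc_bot : oc (⊥ : L) = ⊤ := by
  have h := sup_oc (⊥ : L)
  rwa [bot_sup_eq] at h

lemma oc_top : oc (⊤ : L) = ⊥ := by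
  rw [← oc_bot, oc_oc]

lemma oc_sup (a b : L) : oc (a ⊔ b) = oc a ⊓ oc b := by
  apply le_antisymm
  · exact le_inf (oc_anti _ _ le_sup_left) (oc_anti _ _ le_sup_right)
  · apply le_oc_symm
    exact sup_le (le_oc_symm inf_le_left) (le_oc_symm inf_le_right)

lemma oc_inf (a b : L) : oc (a ⊓ b) = oc a ⊔ oc b := by
  have h := oc_sup (oc a) (oc b)
  rw [oc_oc, oc_oc] at h
  rw [← h, oc_oc]

lemma orth_mono {a b c d : L} (h : c ≤ oc d) (h1 : a ≤ c) (h2 : b ≤ d) : a ≤ oc b :=
  h1.trans (h.trans (oc_anti _ _ h2))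

end Basic

/-- A symmetric relation; an element which is related to itself is related to all elements. -/
structure OSpace (X : Type u) where
  /-- the relation -/
  r : X → X → Prop
  symm : ∀ x y, r x y → r y x
  irr : ∀ x, r x x → ∀ y, r x y

namespace OSpace

variable {X : Type u} (S : OSpace X)

/-- the elements orthogonal to all elements of `A` -/
def perp (A : Set X) : Set X := {x | ∀ a ∈ A, S.r x a}

lemma perp_anti {A B : Set X} (h : A ⊆ B) : S.perp B ⊆ S.perp A := fun _ hx a ha => hx a (h ha)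

lemma le_pp (A : Set X) : A ⊆ S.perp (S.perp A) := fun x hx a ha => S.symm _ _ (ha x hx)

lemma ppp (A : Set X) : S.perp (S.perp (S.perp A)) = S.perp A :=
  Set.Subset.antisymm (S.perp_anti (S.le_pp A)) (S.le_pp _)

/-- the closed sets -/
def Cl : Type u := {A : Set X // S.perp (S.perp A) = A}

instance : PartialOrder S.Cl := inferInstanceAs (PartialOrder {A : Set X // S.perp (S.perp A) = A})

lemma le_def {A B : S.Cl} : A ≤ B ↔ A.1 ⊆ B.1 := Iff.rfl

/-- the closed set `A^⊥` -/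
def mkPerp (A : Set X) : S.Cl := ⟨S.perp A, S.ppp A⟩

instance : OrthoLattice S.Cl where
  sup A B := S.mkPerp (S.perp (A.1 ∪ B.1))
  le_sup_left A B := Set.subset_union_left.trans (S.le_pp _)
  le_sup_right A B := Set.subset_union_right.trans (S.le_pp _)
  sup_le A B C hA hB := by
    show S.perp (S.perp (A.1 ∪ B.1)) ⊆ C.1
    rw [← C.2]
    exact S.perp_anti (S.perp_anti (Set.union_subset hA hB))
  inf A B := ⟨A.1 ∩ B.1, Set.Subset.antisymm (Set.subset_inter
    (by
      conv_rhs => rw [← A.2]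
      exact S.perp_anti (S.perp_anti Set.inter_subset_left))
    (by
      conv_rhs => rw [← B.2]
      exact S.perp_anti (S.perp_anti Set.inter_subset_right))) (S.le_pp _)⟩
  inf_le_left A B := Set.inter_subset_left
  inf_le_right A B := Set.inter_subset_right
  le_inf _ _ _ hB hC := Set.subset_inter hB hC
  top := ⟨Set.univ, Set.Subset.antisymm (Set.subset_univ _) (S.le_pp _)⟩
  le_top A := Set.subset_univ _
  bot := S.mkPerp Set.univ
  bot_le A := by
    show S.perp Set.univ ⊆ A.1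
    rw [← A.2]
    exact S.perp_anti (Set.subset_univ _)
  oc A := S.mkPerp A.1
  oc_oc A := Subtype.ext A.2
  oc_anti A B h := S.perp_anti h
  inf_oc A := by
    apply Subtype.ext
    apply Set.Subset.antisymm
    · rintro x ⟨hx, hx'⟩ y _
      exact S.irr x (hx' x hx) y
    · intro x hx
      refine ⟨?_, fun a _ => hx a (Set.mem_univ a)⟩
      rw [← A.2]
      exact fun a _ => hx a (Set.mem_univ a)
  sup_oc A := by
    apply Subtype.ext
    apply Set.Subset.antisymm (Set.subset_univ _)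
    intro x _ y hy
    have h1 : y ∈ S.perp A.1 := fun a ha => hy a (Or.inl ha)
    have h2 : S.r y y := hy y (Or.inr h1)
    exact S.symm _ _ (S.irr y h2 x)

lemma sup_val (A B : S.Cl) : (A ⊔ B).1 = S.perp (S.perp (A.1 ∪ B.1)) := rfl

lemma inf_val (A B : S.Cl) : (A ⊓ B).1 = A.1 ∩ B.1 := rfl

lemma oc_val (A : S.Cl) : (oc A).1 = S.perp A.1 := rfl

lemma bot_val : (⊥ : S.Cl).1 = S.perp Set.univ := rfl

lemma top_val : (⊤ : S.Cl).1 = Set.univ := rfl

/-- a clique: distinct elements are orthogonal -/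
def Clique (D : Set X) : Prop := ∀ x ∈ D, ∀ y ∈ D, x ≠ y → S.r x y

/-- The closed sets form an orthomodular lattice if every set has the same `^⊥` as a clique and the condition of Dacey
holds. -/
theorem isOML_of (hirr : ∀ x, ¬ S.r x x)
    (hJ : ∀ A : Set X, ∃ D : Set X, S.Clique D ∧ S.perp D = S.perp A)
    (hD : ∀ E : Set X, S.Clique E → S.perp E = ∅ → ∀ x y, (∀ e ∈ E, S.r e x ∨ S.r e y) → S.r x y) :
    IsOML S.Cl := by
  intro A B hAB
  set C : S.Cl := A ⊔ (oc A ⊓ B) with hC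
  have hAC : A ≤ C := le_sup_left
  have hAC' : oc A ⊓ B ≤ C := le_sup_right
  have hCB : C ≤ B := sup_le hAB inf_le_right
  apply le_antisymm _ hCB
  obtain ⟨D1, cD1, hD1⟩ := hJ C.1
  obtain ⟨D2, cD2, hD2⟩ := hJ (S.perp B.1)
  rw [B.2] at hD2
  have hD1C : D1 ⊆ C.1 := by
    rw [← C.2, ← hD1]
    exact S.le_pp D1
  have h12 : ∀ x ∈ D1, ∀ y ∈ D2, S.r x y := by
    intro x hx y hy
    have h1 : x ∈ S.perp D2 := by
      rw [hD2]
      exact hCB (hD1C hx)
    exact h1 y hy
  have hcl : S.Clique (D1 ∪ D2) := by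
    rintro x (hx | hx) y (hy | hy) hne
    · exact cD1 x hx y hy hne
    · exact h12 x hx y hy
    · exact S.symm _ _ (h12 y hy x hx)
    · exact cD2 x hx y hy hne
  have hempty : S.perp (D1 ∪ D2) = ∅ := by
    rw [Set.eq_empty_iff_forall_notMem]
    intro x hx
    have h1 : x ∈ S.perp C.1 := by
      rw [← hD1]
      exact fun a ha => hx a (Or.inl ha)
    have h2 : x ∈ B.1 := by
      rw [← hD2]
      exact fun a ha => hx a (Or.inr ha)
    have h3 : x ∈ (oc A ⊓ B).1 := ⟨fun a ha => h1 a (hAC ha), h2⟩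
    exact hirr x (h1 x (hAC' h3))
  intro b hb
  rw [← C.2]
  intro y hy
  refine hD (D1 ∪ D2) hcl hempty b y ?_
  rintro e (he | he)
  · right
    have h1 : y ∈ S.perp D1 := by
      rw [hD1]
      exact hy
    exact S.symm _ _ (h1 e he)
  · left
    have h1 : b ∈ S.perp D2 := by
      rw [hD2]
      exact hb
    exact S.symm _ _ (h1 e he)

end OSpace

/-- A gap: a nonzero element and pairwise orthogonal nonzero elements strictly below it. -/
structure Gap (M : Type u) [OrthoLattice M] where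
  /-- the top -/
  top : M
  /-- the elements below -/
  ch : Finset M
  top_ne : top ≠ ⊥
  ch_lt : ∀ c ∈ ch, c < top
  ch_orth : ∀ c ∈ ch, ∀ d ∈ ch, c ≠ d → c ≤ oc d

section Gap

variable {M : Type u} [OrthoLattice M]

lemma Gap.ext' {x y : Gap M} (h1 : x.top = y.top) (h2 : x.ch = y.ch) : x = y := by
  cases x
  cases y
  simp only at h1 h2
  subst h1
  subst h2
  rfl

instance [Finite M] : Finite (Gap M) := by
  classical
  have : Function.Injective (fun x : Gap M => (x.top, x.ch)) := by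
    intro x y h
    exact Gap.ext' (congrArg Prod.fst h) (congrArg Prod.snd h)
  exact Finite.of_injective _ this

/-- orthogonality of gaps -/
def Gap.r (x y : Gap M) : Prop :=
  x.top ≤ oc y.top ∨ (∃ c ∈ y.ch, x.top ≤ c) ∨ ∃ c ∈ x.ch, y.top ≤ c

lemma Gap.r_symm {x y : Gap M} (h : x.r y) : y.r x := by
  rcases h with h | h | h
  · exact Or.inl (le_oc_symm h)
  · exact Or.inr (Or.inr h)
  · exact Or.inr (Or.inl h)

lemma Gap.r_irr (x : Gap M) : ¬ x.r x := by
  rintro (h | ⟨c, hc, h⟩ | ⟨c, hc, h⟩)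
  · exact x.top_ne (eq_bot_of_le_oc h)
  · exact absurd (x.ch_lt c hc) (not_lt_of_ge h)
  · exact absurd (x.ch_lt c hc) (not_lt_of_ge h)

/-- the orthogonality space of gaps -/
def gapSpace (M : Type u) [OrthoLattice M] : OSpace (Gap M) where
  r := Gap.r
  symm _ _ h := Gap.r_symm h
  irr x h := absurd h x.r_irr

/-- the join of two gaps which are not orthogonal -/
lemma exists_joinGap [Finite M] (x y : Gap M) (h : ¬ x.r y) :
    ∃ z : Gap M, ∀ w : Gap M, w.r z ↔ w.r x ∧ w.r y := by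
  classical
  have := Fintype.ofFinite M
  have h1 : ¬ x.top ≤ oc y.top := fun h' => h (Or.inl h')
  have h2 : ∀ e ∈ y.ch, ¬ x.top ≤ e := fun e he h' => h (Or.inr (Or.inl ⟨e, he, h'⟩))
  have h3 : ∀ d ∈ x.ch, ¬ y.top ≤ d := fun d hd h' => h (Or.inr (Or.inr ⟨d, hd, h'⟩))
  set P : M → Prop := fun m => (∃ d ∈ x.ch, ∃ e ∈ y.ch, m = d ⊓ e) ∨
    (∃ e ∈ y.ch, m = e ⊓ oc x.top) ∨ ∃ d ∈ x.ch, m = d ⊓ oc y.top with hP
  have hlt : ∀ m, P m → m < x.top ⊔ y.top := by
    rintro m (⟨d, hd, e, he, rfl⟩ | ⟨e, he, rfl⟩ | ⟨d, hd, rfl⟩)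
    · exact inf_le_left.trans_lt ((x.ch_lt d hd).trans_le le_sup_left)
    · exact inf_le_left.trans_lt ((y.ch_lt e he).trans_le le_sup_right)
    · exact inf_le_left.trans_lt ((x.ch_lt d hd).trans_le le_sup_left)
  have hxU : ∀ d ∈ x.ch, d ≤ oc (oc x.top) := fun d hd => by
    rw [oc_oc]
    exact (x.ch_lt d hd).le
  have hyV : ∀ d ∈ y.ch, d ≤ oc (oc y.top) := fun d hd => by
    rw [oc_oc]
    exact (y.ch_lt d hd).le
  have horth : ∀ m, P m → ∀ m', P m' → m ≠ m' → m ≤ oc m' := by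
    rintro m (⟨d, hd, e, he, rfl⟩ | ⟨e, he, rfl⟩ | ⟨d, hd, rfl⟩) m'
      (⟨d', hd', e', he', rfl⟩ | ⟨e', he', rfl⟩ | ⟨d', hd', rfl⟩) hne
    · by_cases hdd : d = d'
      · subst hdd
        have hee : e ≠ e' := by
          rintro rfl
          exact hne rfl
        exact orth_mono (y.ch_orth e he e' he' hee) inf_le_right inf_le_right
      · exact orth_mono (x.ch_orth d hd d' hd' hdd) inf_le_left inf_le_left
    · exact orth_mono (hxU d hd) inf_le_left inf_le_right
    · exact orth_mono (hyV e he) inf_le_right inf_le_right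
    · exact le_oc_symm (orth_mono (hxU d' hd') inf_le_left inf_le_right)
    · have hee : e ≠ e' := by
        rintro rfl
        exact hne rfl
      exact orth_mono (y.ch_orth e he e' he' hee) inf_le_left inf_le_left
    · exact le_oc_symm (orth_mono (hxU d' hd') inf_le_left inf_le_right)
    · exact le_oc_symm (orth_mono (hyV e' he') inf_le_right inf_le_right)
    · exact orth_mono (hxU d hd) inf_le_left inf_le_right
    · have hdd : d ≠ d' := by
        rintro rfl
        exact hne rfl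
      exact orth_mono (x.ch_orth d hd d' hd' hdd) inf_le_left inf_le_left
  have htop : x.top ⊔ y.top ≠ ⊥ := by
    intro h0
    exact x.top_ne (eq_bot_iff.mpr (le_sup_left.trans h0.le))
  refine ⟨⟨x.top ⊔ y.top, Finset.univ.filter P, htop,
    fun c hc => hlt c (Finset.mem_filter.mp hc).2,
    fun c hc d hd => horth c (Finset.mem_filter.mp hc).2 d (Finset.mem_filter.mp hd).2⟩, ?_⟩
  intro w
  constructor
  · rintro (hw | ⟨m, hm, hw⟩ | ⟨f, hf, hw⟩)
    · exact ⟨Or.inl (hw.trans (oc_anti _ _ le_sup_left)), Or.inl (hw.trans (oc_anti _ _ le_sup_right))⟩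
    · rcases (Finset.mem_filter.mp hm).2 with ⟨d, hd, e, he, rfl⟩ | ⟨e, he, rfl⟩ | ⟨d, hd, rfl⟩
      · exact ⟨Or.inr (Or.inl ⟨d, hd, hw.trans inf_le_left⟩),
          Or.inr (Or.inl ⟨e, he, hw.trans inf_le_right⟩)⟩
      · exact ⟨Or.inl (hw.trans inf_le_right), Or.inr (Or.inl ⟨e, he, hw.trans inf_le_left⟩)⟩
      · exact ⟨Or.inr (Or.inl ⟨d, hd, hw.trans inf_le_left⟩), Or.inl (hw.trans inf_le_right)⟩
    · exact ⟨Or.inr (Or.inr ⟨f, hf, le_sup_left.trans hw⟩),
        Or.inr (Or.inr ⟨f, hf, le_sup_right.trans hw⟩)⟩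
  · rintro ⟨hx | ⟨d, hd, hx⟩ | ⟨f, hf, hx⟩, hy | ⟨e, he, hy⟩ | ⟨f', hf', hy⟩⟩
    · left
      show w.top ≤ oc (x.top ⊔ y.top)
      rw [oc_sup]
      exact le_inf hx hy
    · right; left
      exact ⟨e ⊓ oc x.top, Finset.mem_filter.mpr ⟨Finset.mem_univ _, Or.inr (Or.inl ⟨e, he, rfl⟩)⟩,
        le_inf hy hx⟩
    · exact absurd (le_oc_symm (hy.trans ((w.ch_lt f' hf').le.trans hx))) h1
    · right; left
      exact ⟨d ⊓ oc y.top, Finset.mem_filter.mpr ⟨Finset.mem_univ _, Or.inr (Or.inr ⟨d, hd, rfl⟩)⟩,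
        le_inf hx hy⟩
    · right; left
      exact ⟨d ⊓ e, Finset.mem_filter.mpr ⟨Finset.mem_univ _, Or.inl ⟨d, hd, e, he, rfl⟩⟩,
        le_inf hx hy⟩
    · exact absurd (hy.trans ((w.ch_lt f' hf').le.trans hx)) (h3 d hd)
    · exact absurd (hx.trans ((w.ch_lt f hf).le.trans hy)) h1
    · exact absurd (hx.trans ((w.ch_lt f hf).le.trans hy)) (h2 e he)
    · right; right
      by_cases hff : f = f'
      · subst hff
        exact ⟨f, hf, sup_le hx hy⟩
      · exact absurd (orth_mono (w.ch_orth f hf f' hf' hff) hx hy) h1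

/-- every set of gaps has the same `^⊥` as a clique -/
lemma exists_clique [Finite M] (A : Set (Gap M)) :
    ∃ D : Set (Gap M), (gapSpace M).Clique D ∧ (gapSpace M).perp D = (gapSpace M).perp A := by
  classical
  have key : ∀ (n : ℕ) (A : Finset (Gap M)), A.card ≤ n → ∃ D : Set (Gap M),
      (gapSpace M).Clique D ∧ (gapSpace M).perp D = (gapSpace M).perp (A : Set (Gap M)) := by
    intro n
    induction n with
    | zero =>
      intro A hA
      have h0 : A = ∅ := Finset.card_eq_zero.mp (Nat.le_zero.mp hA)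
      subst h0
      exact ⟨_, fun x hx => absurd hx (Finset.notMem_empty x), rfl⟩
    | succ n ih =>
      intro A hA
      by_cases hcl : (gapSpace M).Clique (A : Set (Gap M))
      · exact ⟨_, hcl, rfl⟩
      · unfold OSpace.Clique at hcl
        push Not at hcl
        obtain ⟨x, hx, y, hy, hne, hxy⟩ := hcl
        obtain ⟨z, hz⟩ := exists_joinGap x y hxy
        have hx' : x ∈ A := hx
        have hy' : y ∈ A.erase x := Finset.mem_erase.mpr ⟨hne.symm, hy⟩
        have hcard : (insert z ((A.erase x).erase y)).card ≤ n := by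
          have h1 := Finset.card_insert_le z ((A.erase x).erase y)
          rw [Finset.card_erase_of_mem hy', Finset.card_erase_of_mem hx'] at h1
          have h2 : 2 ≤ A.card := by
            have h3 : 0 < (A.erase x).card := Finset.card_pos.mpr ⟨y, hy'⟩
            rw [Finset.card_erase_of_mem hx'] at h3
            omega
          omega
        obtain ⟨D, hD, hD'⟩ := ih _ hcard
        refine ⟨D, hD, hD'.trans ?_⟩
        ext w
        constructor
        · intro hw a ha
          by_cases hax : a = x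
          · subst hax
            exact ((hz w).mp (hw z (Finset.mem_coe.mpr (Finset.mem_insert_self _ _)))).1
          · by_cases hay : a = y
            · subst hay
              exact ((hz w).mp (hw z (Finset.mem_coe.mpr (Finset.mem_insert_self _ _)))).2
            · apply hw a
              rw [Finset.mem_coe]
              exact Finset.mem_insert_of_mem
                (Finset.mem_erase.mpr ⟨hay, Finset.mem_erase.mpr ⟨hax, ha⟩⟩)
        · intro hw a ha
          rw [Finset.mem_coe, Finset.mem_insert] at ha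
          rcases ha with rfl | ha
          · exact (hz w).mpr ⟨hw x hx, hw y hy⟩
          · exact hw a (Finset.mem_of_mem_erase (Finset.mem_of_mem_erase ha))
  have hfin : A.Finite := Set.toFinite A
  have := key hfin.toFinset.card hfin.toFinset le_rfl
  rwa [hfin.coe_toFinset] at this

/-- a new gap orthogonal to a clique -/
lemma exists_newGap [Finite M] (E : Set (Gap M)) (hE : (gapSpace M).Clique E) (R : M) (hR : R ≠ ⊥)
    (h : ∀ g ∈ E, g.top ≤ oc R ∨ g.top < R ∨ ∃ c ∈ g.ch, R ≤ c) :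
    ∃ n : Gap M, ∀ g ∈ E, n.r g := by
  classical
  have := Fintype.ofFinite M
  set s : Set M := {m | ∃ g ∈ E, g.top = m ∧ m < R} with hs
  have hfin : s.Finite := Set.toFinite s
  have hmax : ∀ m m', Maximal (· ∈ s) m → Maximal (· ∈ s) m' → m ≠ m' → m ≤ oc m' := by
    intro m m' hm hm' hne
    obtain ⟨g, hg, hgm, hgR⟩ := hm.1
    obtain ⟨g', hg', hgm', hgR'⟩ := hm'.1
    have hgg : g ≠ g' := by
      rintro rfl
      exact hne (hgm.symm.trans hgm')
    rcases hE g hg g' hg' hgg with h1 | ⟨c, hc, h1⟩ | ⟨c, hc, h1⟩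
    · rwa [hgm, hgm'] at h1
    · exfalso
      have h2 : g.top < g'.top := h1.trans_lt (g'.ch_lt c hc)
      rw [hgm, hgm'] at h2
      exact absurd (hm.2 hm'.1 h2.le) (not_le_of_gt h2)
    · exfalso
      have h2 : g'.top < g.top := h1.trans_lt (g.ch_lt c hc)
      rw [hgm, hgm'] at h2
      exact absurd (hm'.2 hm.1 h2.le) (not_le_of_gt h2)
  refine ⟨⟨R, Finset.univ.filter (fun m => Maximal (· ∈ s) m), hR, ?_, ?_⟩, ?_⟩
  · intro c hc
    obtain ⟨g, -, -, hlt⟩ := (Finset.mem_filter.mp hc).2.1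
    exact hlt
  · intro c hc d hd hne
    exact hmax c d (Finset.mem_filter.mp hc).2 (Finset.mem_filter.mp hd).2 hne
  · intro g hg
    rcases h g hg with h1 | h1 | h1
    · exact Or.inl (le_oc_symm h1)
    · obtain ⟨m, hgm, hm⟩ := hfin.exists_le_maximal (a := g.top) ⟨g, hg, rfl, h1⟩
      exact Or.inr (Or.inr ⟨m, Finset.mem_filter.mpr ⟨Finset.mem_univ _, hm⟩, hgm⟩)
    · exact Or.inr (Or.inl h1)

/-- the smallest top above a given element -/
lemma exists_minGap [Finite M] (E : Set (Gap M)) (hE : (gapSpace M).Clique E)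
    (h0 : (gapSpace M).perp E = ∅) (U : M) (hU : U ≠ ⊥) :
    ∃ g ∈ E, U ≤ g.top ∧ ∀ c ∈ g.ch, ¬ U ≤ c := by
  classical
  have hno : ∀ n : Gap M, ¬ ∀ g ∈ E, n.r g := by
    intro n hn
    have : n ∈ (gapSpace M).perp E := hn
    rw [h0] at this
    exact this
  have ha : ∃ g ∈ E, g.top = ⊤ := by
    by_contra hcon
    push Not at hcon
    have htop : (⊤ : M) ≠ ⊥ := by
      intro h
      exact hU (eq_bot_iff.mpr (le_top.trans h.le))
    obtain ⟨n, hn⟩ := exists_newGap E hE ⊤ htop fun g hg =>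
      Or.inr (Or.inl (lt_top_iff_ne_top.mpr (hcon g hg)))
    exact hno n hn
  have hb : ∀ g ∈ E, ∀ c ∈ g.ch, c ≠ ⊥ → ∃ k ∈ E, k.top = c := by
    intro g hg c hc hc0
    by_contra hcon
    push Not at hcon
    obtain ⟨n, hn⟩ := exists_newGap E hE c hc0 (by
      intro k hk
      by_cases hkg : k = g
      · subst hkg
        exact Or.inr (Or.inr ⟨c, hc, le_rfl⟩)
      · rcases hE k hk g hg hkg with h1 | ⟨c', hc', h1⟩ | ⟨c', hc', h1⟩
        · exact Or.inl (h1.trans (oc_anti _ _ (g.ch_lt c hc).le))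
        · by_cases hcc : c' = c
          · subst hcc
            exact Or.inr (Or.inl (lt_of_le_of_ne h1 (hcon k hk)))
          · exact Or.inl (h1.trans (g.ch_orth c' hc' c hc hcc))
        · exact Or.inr (Or.inr ⟨c', hc', (g.ch_lt c hc).le.trans h1⟩))
    exact hno n hn
  have hfin : ({m | ∃ g ∈ E, g.top = m ∧ U ≤ m} : Set M).Finite := Set.toFinite _
  obtain ⟨g0, hg0, hg0t⟩ := ha
  obtain ⟨m, -, hm⟩ := hfin.exists_le_minimal (a := ⊤) ⟨g0, hg0, hg0t, le_top⟩
  obtain ⟨g, hg, hgm, hUm⟩ := hm.1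
  refine ⟨g, hg, hgm ▸ hUm, ?_⟩
  intro c hc hUc
  have hc0 : c ≠ ⊥ := by
    rintro rfl
    exact hU (eq_bot_iff.mpr hUc)
  obtain ⟨k, hk, hkc⟩ := hb g hg c hc hc0
  have h1 : c < m := hgm ▸ g.ch_lt c hc
  exact absurd (hm.2 ⟨k, hk, hkc, hUc⟩ h1.le) (not_le_of_gt h1)

/-- the condition of Dacey -/
lemma gap_dacey [Finite M] (E : Set (Gap M)) (hE : (gapSpace M).Clique E)
    (h0 : (gapSpace M).perp E = ∅) (x y : Gap M) (h : ∀ e ∈ E, e.r x ∨ e.r y) : x.r y := by
  obtain ⟨g, hg, hxg, hgc⟩ := exists_minGap E hE h0 x.top x.top_ne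
  obtain ⟨k, hk, hyk, hkc⟩ := exists_minGap E hE h0 y.top y.top_ne
  have hgx : ¬ g.r x := by
    rintro (h1 | ⟨c, hc, h1⟩ | ⟨c, hc, h1⟩)
    · exact x.top_ne (eq_bot_of_le_oc (hxg.trans h1))
    · exact absurd (x.ch_lt c hc) (not_lt_of_ge (hxg.trans h1))
    · exact hgc c hc h1
  have hky : ¬ k.r y := by
    rintro (h1 | ⟨c, hc, h1⟩ | ⟨c, hc, h1⟩)
    · exact y.top_ne (eq_bot_of_le_oc (hyk.trans h1))
    · exact absurd (y.ch_lt c hc) (not_lt_of_ge (hyk.trans h1))
    · exact hkc c hc h1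
  have hgy : g.r y := (h g hg).resolve_left hgx
  have hkx : k.r x := (h k hk).resolve_right hky
  rcases hgy with h1 | ⟨c, hc, h1⟩ | ⟨c, hc, h1⟩
  · exact Or.inl (hxg.trans h1)
  · exact Or.inr (Or.inl ⟨c, hc, hxg.trans h1⟩)
  · rcases hkx with h2 | ⟨d, hd, h2⟩ | ⟨d, hd, h2⟩
    · exact Or.inl (le_oc_symm (hyk.trans h2))
    · exact Or.inr (Or.inr ⟨d, hd, hyk.trans h2⟩)
    · exfalso
      by_cases hgk : g = k
      · subst hgk
        exact hkc c hc h1
      · rcases hE g hg k hk hgk with h3 | ⟨c', hc', h3⟩ | ⟨c', hc', h3⟩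
        · apply y.top_ne
          apply eq_bot_of_le_oc
          exact orth_mono h3 (h1.trans (g.ch_lt c hc).le) hyk
        · exact hkc c' hc' (h1.trans ((g.ch_lt c hc).le.trans h3))
        · exact hgc c' hc' (h2.trans ((k.ch_lt d hd).le.trans h3))

theorem isOML_gap [Finite M] : IsOML (gapSpace M).Cl :=
  (gapSpace M).isOML_of (fun x => x.r_irr) exists_clique gap_dacey

end Gap

end Pool.Agent.Lib.MP_638764_al
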