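import Pool.Agent.Lib.MP_638764_al.Main

/-!
# Identities between arbitrary terms
-/

namespace Pool.Agent.Lib.MP_638764_al

universe u v

/-- Terms in the signature of ortholattices. -/
inductive Term : Type
  | var (n : ℕ) : Term
  | zero : Term
  | one : Term
  | compl (t : Term) : Term
  | join (s t : Term) : Term
  | meet (s t : Term) : Term

/-- The value of a term. -/
def Term.eval {L : Type u} [OrthoLattice L] (x : ℕ → L) : Term → L
  | .var n => x n
  | .zero => ⊥
  | .one => ⊤
  | .compl t => oc (t.eval x)
  | .join s t => s.eval x ⊔ t.eval x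
  | .meet s t => s.eval x ⊓ t.eval x

/-- The negation normal form of a term (`true`) and of its complement (`false`), obtained by the laws of De Morgan. -/
def Term.nnf : Bool → Term → Nnf
  | true, .var n => .pos n
  | false, .var n => .neg n
  | true, .zero => .zero
  | false, .zero => .one
  | true, .one => .one
  | false, .one => .zero
  | b, .compl t => t.nnf (!b)
  | true, .join s t => .join (s.nnf true) (t.nnf true)
  | false, .join s t => .meet (s.nnf false) (t.nnf false)
  | true, .meet s t => .meet (s.nnf true) (t.nnf true)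
  | false, .meet s t => .join (s.nnf false) (t.nnf false)

/-- The negation normal form of `(s ∨ t) ∧ (s ∧ t)'`; in an orthomodular lattice its value is `0` if and only if the
values of `s` and `t` are equal. -/
def diffNnf (s t : Term) : Nnf := (Term.meet (s.join t) (s.meet t).compl).nnf true

variable {L : Type u} [OrthoLattice L]

lemma eval_nnf (x : ℕ → L) (t : Term) :
    (t.nnf true).eval x = t.eval x ∧ (t.nnf false).eval x = oc (t.eval x) := by
  induction t with
  | var n => exact ⟨rfl, rfl⟩
  | zero => exact ⟨rfl, oc_bot.symm⟩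
  | one => exact ⟨rfl, oc_top.symm⟩
  | compl t ih =>
    refine ⟨?_, ?_⟩
    · show (t.nnf false).eval x = oc (t.eval x)
      exact ih.2
    · show (t.nnf true).eval x = oc (oc (t.eval x))
      rw [oc_oc]
      exact ih.1
  | join s t ihs iht =>
    refine ⟨?_, ?_⟩
    · show (s.nnf true).eval x ⊔ (t.nnf true).eval x = s.eval x ⊔ t.eval x
      rw [ihs.1, iht.1]
    · show (s.nnf false).eval x ⊓ (t.nnf false).eval x = oc (s.eval x ⊔ t.eval x)
      rw [ihs.2, iht.2, oc_sup]
  | meet s t ihs iht =>
    refine ⟨?_, ?_⟩
    · show (s.nnf true).eval x ⊓ (t.nnf true).eval x = s.eval x ⊓ t.eval x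
      rw [ihs.1, iht.1]
    · show (s.nnf false).eval x ⊔ (t.nnf false).eval x = oc (s.eval x ⊓ t.eval x)
      rw [ihs.2, iht.2, oc_inf]

/-- In an orthomodular lattice two elements are equal if `(a ∨ b) ∧ (a ∧ b)' = 0`. -/
lemma eq_of_diff {L : Type u} [OrthoLattice L] (hL : IsOML L) {a b : L}
    (h : (a ⊔ b) ⊓ oc (a ⊓ b) = ⊥) : a = b := by
  have h1 := hL (a ⊓ b) (a ⊔ b) (inf_le_left.trans le_sup_left)
  rw [inf_comm (oc (a ⊓ b)), h, sup_bot_eq] at h1
  apply le_antisymm
  · exact (le_sup_left.trans h1.le).trans inf_le_right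
  · exact (le_sup_right.trans h1.le).trans inf_le_left

lemma eval_diffNnf {L : Type u} [OrthoLattice L] (x : ℕ → L) (s t : Term) :
    (diffNnf s t).eval x = (s.eval x ⊔ t.eval x) ⊓ oc (s.eval x ⊓ t.eval x) :=
  (eval_nnf x (Term.meet (s.join t) (s.meet t).compl)).1

/-- Let `s`, `t` be terms such that the negation normal form of `(s ∨ t) ∧ (s ∧ t)'` has no orthogonal joins. If
`s ≈ t` holds in every finite orthomodular lattice, then it holds in every orthomodular lattice. -/
theorem identity_main (s t : Term) (h : Nnf.NoOrthogonalJoin.{u} (diffNnf s t))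
    (hfin : ∀ (N : Type) [OrthoLattice N] [Finite N], IsOML N →
      ∀ x : ℕ → N, s.eval x = t.eval x)
    (L : Type u) [OrthoLattice L] (hL : IsOML L) (x : ℕ → L) : s.eval x = t.eval x := by
  apply eq_of_diff hL
  rw [← eval_diffNnf]
  refine nnf_main _ h ?_ L x
  intro N _ _ hN y
  rw [eval_diffNnf, hfin N hN y, sup_idem, inf_idem]
  exact inf_oc _

/-! ### Example: terms in which every variable has only one sign -/

/-- a two-element ortholattice -/
noncomputable instance setOL : OrthoLattice (Set PUnit.{u + 1}) where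
  oc a := aᶜ
  oc_oc a := compl_compl a
  oc_anti _ _ h := Set.compl_subset_compl.mpr h
  inf_oc a := Set.inter_compl_self a
  sup_oc a := Set.union_compl_self a

/-- the variables in `P` occur only positively, the other variables only negatively, and `0` does not occur -/
def Nnf.OneSigned (P : Set ℕ) : Nnf → Prop
  | .pos n => n ∈ P
  | .neg n => n ∉ P
  | .zero => False
  | .one => True
  | .join s t => s.OneSigned P ∧ t.OneSigned P
  | .meet s t => s.OneSigned P ∧ t.OneSigned P

open Classical in
lemma Nnf.OneSigned.eval {P : Set ℕ} {t : Nnf} (h : t.OneSigned P) {L : Type u} [OrthoLattice L] :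
    t.eval (fun n => if n ∈ P then (⊤ : L) else ⊥) = ⊤ := by
  induction t with
  | pos n =>
    have h1 : n ∈ P := h
    simp [Nnf.eval, h1]
  | neg n =>
    have h1 : n ∉ P := h
    simp [Nnf.eval, h1, oc_bot]
  | zero => exact h.elim
  | one => rfl
  | join s t ihs iht =>
    show s.eval _ ⊔ t.eval _ = _
    rw [ihs h.1, iht h.2, sup_idem]
  | meet s t ihs iht =>
    show s.eval _ ⊓ t.eval _ = _
    rw [ihs h.1, iht h.2, inf_idem]

lemma Nnf.OneSigned.joins {P : Set ℕ} {t : Nnf} (h : t.OneSigned P) :
    ∀ p ∈ t.joins, p.1.OneSigned P ∧ p.2.OneSigned P := by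
  induction t with
  | pos n => exact fun p hp => absurd hp (List.not_mem_nil)
  | neg n => exact fun p hp => absurd hp (List.not_mem_nil)
  | zero => exact fun p hp => absurd hp (List.not_mem_nil)
  | one => exact fun p hp => absurd hp (List.not_mem_nil)
  | join s t ihs iht =>
    intro p hp
    rw [joins_join, List.mem_cons, List.mem_append] at hp
    rcases hp with rfl | hp | hp
    · exact h
    · exact ihs h.1 p hp
    · exact iht h.2 p hp
  | meet s t ihs iht =>
    intro p hp
    rw [joins_meet, List.mem_append] at hp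
    rcases hp with hp | hp
    · exact ihs h.1 p hp
    · exact iht h.2 p hp

/-- Terms in which every variable has only one sign have no orthogonal joins. This applies to `s ∧ t'` for lattice
terms `s`, `t` with different variables, and shows that the condition is not empty. -/
theorem Nnf.OneSigned.noOrthogonalJoin {P : Set ℕ} {t : Nnf} (h : t.OneSigned P) :
    Nnf.NoOrthogonalJoin.{u} t := by
  classical
  intro p hp
  left
  obtain ⟨h1, h2⟩ := h.joins p hp
  refine ⟨Set PUnit.{u + 1}, inferInstance, fun n => if n ∈ P then ⊤ else ⊥, ?_⟩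
  rw [h1.eval, h2.eval, oc_top]
  intro h3
  exact h3 (Set.mem_univ PUnit.unit)

/-- Lattice terms: no complements and no constants. -/
def Nnf.IsLatticeTerm : Nnf → Prop
  | .pos _ => True
  | .join s t => s.IsLatticeTerm ∧ t.IsLatticeTerm
  | .meet s t => s.IsLatticeTerm ∧ t.IsLatticeTerm
  | _ => False

/-- The normal form of the complement. -/
def Nnf.dual : Nnf → Nnf
  | .pos n => .neg n
  | .neg n => .pos n
  | .zero => .one
  | .one => .zero
  | .join s t => .meet s.dual t.dual
  | .meet s t => .join s.dual t.dual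

lemma Nnf.IsLatticeTerm.oneSigned {t : Nnf} (h : t.IsLatticeTerm) :
    t.OneSigned Set.univ ∧ t.dual.OneSigned ∅ := by
  induction t with
  | pos n => exact ⟨Set.mem_univ n, Set.notMem_empty n⟩
  | neg n => exact h.elim
  | zero => exact h.elim
  | one => exact h.elim
  | join s t ihs iht => exact ⟨⟨(ihs h.1).1, (iht h.2).1⟩, ⟨(ihs h.1).2, (iht h.2).2⟩⟩
  | meet s t ihs iht => exact ⟨⟨(ihs h.1).1, (iht h.2).1⟩, ⟨(ihs h.1).2, (iht h.2).2⟩⟩

/-- The normal form of `s ∧ t'` for lattice terms `s`, `t` has no orthogonal joins. -/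
theorem noOrthogonalJoin_of_lattice {s t : Nnf} (hs : s.IsLatticeTerm) (ht : t.IsLatticeTerm) :
    Nnf.NoOrthogonalJoin.{u} (s.meet t.dual) := by
  intro p hp
  rw [joins_meet, List.mem_append] at hp
  rcases hp with hp | hp
  · exact hs.oneSigned.1.noOrthogonalJoin p hp
  · exact ht.oneSigned.2.noOrthogonalJoin p hp

end Pool.Agent.Lib.MP_638764_al
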