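import Pool.Agent.Lib.MP_638764_al.Gap

/-!
# Terms whose essential joins are not orthogonal
-/

namespace Pool.Agent.Lib.MP_638764_al

universe u v

/-- the join of `a` and `b` is `1` in every finite orthomodular lattice -/
def TopJoin (a b : Nnf) : Prop :=
  ∀ (N : Type) [OrthoLattice N] [Finite N], IsOML N → ∀ x : ℕ → N, (a.join b).eval x = ⊤

/-- the joins in `t` are trivial or not orthogonal at `x` -/
def Good {L : Type u} [OrthoLattice L] (x : ℕ → L) (t : Nnf) : Prop :=
  ∀ p ∈ t.joins, p.1.eval x = ⊥ ∨ p.2.eval x = ⊥ ∨ TopJoin p.1 p.2 ∨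
    ¬ p.1.eval x ≤ oc (p.2.eval x)

lemma joins_join (s t : Nnf) : (s.join t).joins = (s, t) :: (s.joins ++ t.joins) := rfl

lemma joins_meet (s t : Nnf) : (s.meet t).joins = s.joins ++ t.joins := rfl

/-! ### Gap lattices -/

section GapEval

variable {M : Type u} [OrthoLattice M]

/-- the closed set generated by the gaps with top at most `u` -/
def emb (a : M) : (gapSpace M).Cl := (gapSpace M).mkPerp ((gapSpace M).perp {g | g.top ≤ a})

lemma emb_le_iff {a : M} {A : (gapSpace M).Cl} : emb a ≤ A ↔ ∀ g : Gap M, g.top ≤ a → g ∈ A.1 := by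
  constructor
  · intro h g hg
    exact h ((gapSpace M).le_pp _ hg)
  · intro h
    show (gapSpace M).perp ((gapSpace M).perp {g : Gap M | g.top ≤ a}) ⊆ A.1
    rw [← A.2]
    exact (gapSpace M).perp_anti ((gapSpace M).perp_anti fun g hg => h g hg)

lemma emb_mono {a b : M} (h : a ≤ b) : emb a ≤ emb b := by
  rw [emb_le_iff]
  intro g hg
  exact (gapSpace M).le_pp _ (hg.trans h)

lemma emb_oc (a : M) : emb (oc a) ≤ oc (emb a) := by
  rw [emb_le_iff]
  intro g hg
  show g ∈ (gapSpace M).perp ((gapSpace M).perp ((gapSpace M).perp {g : Gap M | g.top ≤ a}))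
  rw [(gapSpace M).ppp]
  intro k hk
  exact Or.inl (orth_mono hg le_rfl hk)

lemma bot_empty : (⊥ : (gapSpace M).Cl).1 = ∅ := by
  rw [OSpace.bot_val, Set.eq_empty_iff_forall_notMem]
  intro x hx
  exact x.r_irr (hx x (Set.mem_univ x))

lemma emb_bot : emb (⊥ : M) ≤ ⊥ := by
  rw [emb_le_iff]
  intro g hg
  exact absurd (eq_bot_iff.mpr hg) g.top_ne

lemma emb_ne_bot {a : M} (ha : a ≠ ⊥) : emb a ≠ ⊥ := by
  intro h
  have h1 : emb a ≤ ⊥ := h.le
  rw [emb_le_iff] at h1
  have h2 := h1 ⟨a, ∅, ha, by simp, by simp⟩ le_rfl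
  rw [bot_empty] at h2
  exact h2

lemma emb_sup {a b : M} (h : ¬ a ≤ oc b) : emb (a ⊔ b) ≤ emb a ⊔ emb b := by
  by_cases ha : a = ⊥
  · exact absurd (ha ▸ bot_le) h
  by_cases hb : b = ⊥
  · exact absurd (le_oc_symm (hb ▸ bot_le)) h
  rw [emb_le_iff]
  intro g hg w hw
  have hwa : w.r ⟨a, ∅, ha, by simp, by simp⟩ :=
    hw _ (Or.inl ((gapSpace M).le_pp _ (le_refl a)))
  have hwb : w.r ⟨b, ∅, hb, by simp, by simp⟩ :=
    hw _ (Or.inr ((gapSpace M).le_pp _ (le_refl b)))
  have ca : w.top ≤ oc a ∨ ∃ c ∈ w.ch, a ≤ c := by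
    rcases hwa with h1 | ⟨c, hc, h1⟩ | h1
    · exact Or.inl h1
    · exact absurd hc (Finset.notMem_empty c)
    · exact Or.inr h1
  have cb : w.top ≤ oc b ∨ ∃ c ∈ w.ch, b ≤ c := by
    rcases hwb with h1 | ⟨c, hc, h1⟩ | h1
    · exact Or.inl h1
    · exact absurd hc (Finset.notMem_empty c)
    · exact Or.inr h1
  apply (gapSpace M).symm
  rcases ca with h1 | ⟨c, hc, h1⟩
  · rcases cb with h2 | ⟨d, hd, h2⟩
    · left
      refine orth_mono (c := w.top) (d := a ⊔ b) ?_ le_rfl hg
      rw [oc_sup]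
      exact le_inf h1 h2
    · exact absurd (le_oc_symm (h2.trans ((w.ch_lt d hd).le.trans h1))) h
  · rcases cb with h2 | ⟨d, hd, h2⟩
    · exact absurd (h1.trans ((w.ch_lt c hc).le.trans h2)) h
    · by_cases hcd : c = d
      · subst hcd
        exact Or.inr (Or.inr ⟨c, hc, hg.trans (sup_le h1 h2)⟩)
      · exact absurd (orth_mono (w.ch_orth c hc d hd hcd) h1 h2) h

end GapEval

instance {X : Type u} [Finite X] (S : OSpace X) : Finite S.Cl :=
  inferInstanceAs (Finite {A : Set X // S.perp (S.perp A) = A})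

/-- evaluation in the gap lattice -/
lemma emb_eval {M : Type} [OrthoLattice M] [Finite M] (x : ℕ → M) (t : Nnf) (h : Good x t) :
    emb (t.eval x) ≤ t.eval (fun n => emb (x n)) := by
  induction t with
  | pos n => exact le_rfl
  | neg n => exact emb_oc (x n)
  | zero => exact emb_bot
  | one => exact le_top
  | join s t ihs iht =>
    have hs : Good x s := fun p hp => h p (by
      rw [joins_join]
      exact List.mem_cons_of_mem _ (List.mem_append_left _ hp))
    have ht : Good x t := fun p hp => h p (by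
      rw [joins_join]
      exact List.mem_cons_of_mem _ (List.mem_append_right _ hp))
    have h1 := ihs hs
    have h2 := iht ht
    have h3 := h (s, t) (by
      rw [joins_join]
      exact List.mem_cons_self)
    have h12 : emb (s.eval x) ⊔ emb (t.eval x) ≤ (s.join t).eval (fun n => emb (x n)) :=
      sup_le_sup h1 h2
    show emb (s.eval x ⊔ t.eval x) ≤ _
    rcases h3 with h3 | h3 | h3 | h3
    · simp only at h3
      rw [h3, bot_sup_eq]
      exact h2.trans le_sup_right
    · simp only at h3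
      rw [h3, sup_bot_eq]
      exact h1.trans le_sup_left
    · rw [h3 (gapSpace M).Cl isOML_gap (fun n => emb (x n))]
      exact le_top
    · exact (emb_sup h3).trans h12
  | meet s t ihs iht =>
    have hs : Good x s := fun p hp => h p (by
      rw [joins_meet]
      exact List.mem_append_left _ hp)
    have ht : Good x t := fun p hp => h p (by
      rw [joins_meet]
      exact List.mem_append_right _ hp)
    exact le_inf ((emb_mono inf_le_left).trans (ihs hs)) ((emb_mono inf_le_right).trans (iht ht))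

/-- a nonzero value in a finite ortholattice gives a nonzero value in a finite orthomodular lattice -/
theorem exists_finite_oml {M : Type} [OrthoLattice M] [Finite M] (x : ℕ → M) (t : Nnf)
    (h : Good x t) (h0 : t.eval x ≠ ⊥) : ∃ (N : Type) (_ : OrthoLattice N) (_ : Finite N),
      IsOML N ∧ ∃ y : ℕ → N, t.eval y ≠ ⊥ := by
  refine ⟨(gapSpace M).Cl, inferInstance, inferInstance, isOML_gap, fun n => emb (x n), ?_⟩
  intro h1
  have h2 := emb_eval x t h
  rw [h1] at h2
  exact emb_ne_bot h0 (le_bot_iff.mp h2)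

/-! ### Reduction to finite ortholattices -/

section Fin

variable {L : Type u} [OrthoLattice L]

/-- the orthogonality space of a finite subset -/
def finSpace {n : ℕ} (e : Fin n → L) : OSpace (Fin n) where
  r i j := e i ≤ oc (e j)
  symm _ _ h := le_oc_symm h
  irr i h j := by
    rw [eq_bot_of_le_oc h]
    exact bot_le

/-- the closed set of a value -/
def fin1 {n : ℕ} (e : Fin n → L) (a : L) : (finSpace e).Cl := (finSpace e).mkPerp {j | e j ≤ oc a}

variable {n : ℕ} {e : Fin n → L}

lemma mem_fin1 {a : L} (ha : oc a ∈ Set.range e) (i : Fin n) : i ∈ (fin1 e a).1 ↔ e i ≤ a := by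
  constructor
  · intro h
    obtain ⟨j, hj⟩ := ha
    have h1 : e i ≤ oc (e j) := h j hj.le
    rwa [hj, oc_oc] at h1
  · intro h j hj
    exact orth_mono (le_oc_symm hj) h le_rfl

lemma fin1_le {a b : L} (ha : a ∈ Set.range e) (ha' : oc a ∈ Set.range e)
    (hb' : oc b ∈ Set.range e) : fin1 e a ≤ fin1 e b ↔ a ≤ b := by
  constructor
  · intro h
    obtain ⟨i, hi⟩ := ha
    have h1 : i ∈ (fin1 e a).1 := (mem_fin1 ha' i).mpr hi.le
    have h2 := (mem_fin1 hb' i).mp (h h1)
    rwa [hi] at h2
  · intro h i hi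
    exact (mem_fin1 hb' i).mpr (((mem_fin1 ha' i).mp hi).trans h)

lemma fin1_oc {a : L} (ha : a ∈ Set.range e) (ha' : oc a ∈ Set.range e) :
    fin1 e (oc a) = oc (fin1 e a) := by
  apply Subtype.ext
  ext i
  rw [mem_fin1 (by rwa [oc_oc])]
  constructor
  · intro h j hj
    exact orth_mono h le_rfl ((mem_fin1 ha' j).mp hj)
  · intro h
    obtain ⟨k, hk⟩ := ha
    have h1 : e i ≤ oc (e k) := h k ((mem_fin1 ha' k).mpr hk.le)
    rwa [hk] at h1

lemma fin1_inf {a b : L} (ha' : oc a ∈ Set.range e) (hb' : oc b ∈ Set.range e)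
    (hab' : oc (a ⊓ b) ∈ Set.range e) : fin1 e (a ⊓ b) = fin1 e a ⊓ fin1 e b := by
  apply Subtype.ext
  ext i
  rw [mem_fin1 hab', OSpace.inf_val, Set.mem_inter_iff, mem_fin1 ha', mem_fin1 hb', le_inf_iff]

lemma fin1_sup {a b : L} (ha : a ∈ Set.range e) (hb : b ∈ Set.range e)
    (ha' : oc a ∈ Set.range e) (hb' : oc b ∈ Set.range e)
    (hab : a ⊔ b ∈ Set.range e) (hab' : oc (a ⊔ b) ∈ Set.range e) :
    fin1 e (a ⊔ b) = fin1 e a ⊔ fin1 e b := by
  have h1 : fin1 e (oc (a ⊔ b)) = fin1 e (oc a ⊓ oc b) := by rw [oc_sup]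
  rw [fin1_inf (by rwa [oc_oc]) (by rwa [oc_oc]) (by rwa [← oc_sup, oc_oc]), fin1_oc hab hab',
    fin1_oc ha ha', fin1_oc hb hb', ← oc_sup] at h1
  have h2 := congrArg oc h1
  rwa [oc_oc, oc_oc] at h2

lemma fin1_bot (hb : (⊥ : L) ∈ Set.range e) (ht : (⊤ : L) ∈ Set.range e) :
    fin1 e (⊥ : L) = ⊥ := by
  apply le_bot_iff.mp
  intro i hi
  have h1 := (mem_fin1 (by rwa [oc_bot]) i).mp hi
  intro j _
  show e i ≤ oc (e j)
  exact h1.trans bot_le

end Fin

/-- the values of all subterms -/
def vals {L : Type u} [OrthoLattice L] (x : ℕ → L) : Nnf → Set L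
  | .pos n => {x n, oc (x n)}
  | .neg n => {x n, oc (x n)}
  | .zero => {⊥, ⊤}
  | .one => {⊥, ⊤}
  | .join s t => vals x s ∪ vals x t ∪ {s.eval x ⊔ t.eval x, oc (s.eval x ⊔ t.eval x)}
  | .meet s t => vals x s ∪ vals x t ∪ {s.eval x ⊓ t.eval x, oc (s.eval x ⊓ t.eval x)}

lemma vals_finite {L : Type u} [OrthoLattice L] (x : ℕ → L) (t : Nnf) : (vals x t).Finite := by
  induction t with
  | pos n => exact (Set.finite_singleton (oc (x n))).insert (x n)
  | neg n => exact (Set.finite_singleton (oc (x n))).insert (x n)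
  | zero => exact (Set.finite_singleton (⊤ : L)).insert ⊥
  | one => exact (Set.finite_singleton (⊤ : L)).insert ⊥
  | join s t ihs iht => exact (ihs.union iht).union (Set.toFinite _)
  | meet s t ihs iht => exact (ihs.union iht).union (Set.toFinite _)

lemma eval_mem_vals {L : Type u} [OrthoLattice L] (x : ℕ → L) (t : Nnf) :
    t.eval x ∈ vals x t ∧ oc (t.eval x) ∈ vals x t := by
  cases t with
  | pos n => exact ⟨Or.inl rfl, Or.inr rfl⟩
  | neg n =>
    refine ⟨Or.inr rfl, Or.inl ?_⟩
    show oc (oc (x n)) = x n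
    exact oc_oc _
  | zero => exact ⟨Or.inl rfl, Or.inr oc_bot⟩
  | one => exact ⟨Or.inr rfl, Or.inl oc_top⟩
  | join s t => exact ⟨Or.inr (Or.inl rfl), Or.inr (Or.inr rfl)⟩
  | meet s t => exact ⟨Or.inr (Or.inl rfl), Or.inr (Or.inr rfl)⟩

/-- evaluation in the finite ortholattice -/
lemma fin1_eval {L : Type u} [OrthoLattice L] {n : ℕ} {e : Fin n → L} (hb : (⊥ : L) ∈ Set.range e)
    (ht : (⊤ : L) ∈ Set.range e) (x : ℕ → L) (t : Nnf) (h : vals x t ⊆ Set.range e) :
    t.eval (fun k => fin1 e (x k)) = fin1 e (t.eval x) ∧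
      (Good x t → Good (fun k => fin1 e (x k)) t) := by
  induction t with
  | pos k => exact ⟨rfl, fun _ p hp => absurd hp (List.not_mem_nil)⟩
  | neg k =>
    refine ⟨?_, fun _ p hp => absurd hp (List.not_mem_nil)⟩
    exact (fin1_oc (h (Or.inl rfl)) (h (Or.inr rfl))).symm
  | zero => exact ⟨(fin1_bot hb ht).symm, fun _ p hp => absurd hp (List.not_mem_nil)⟩
  | one =>
    refine ⟨?_, fun _ p hp => absurd hp (List.not_mem_nil)⟩
    show (⊤ : (finSpace e).Cl) = fin1 e (⊤ : L)
    rw [← oc_bot, ← oc_bot, fin1_oc hb (by rwa [oc_bot]), fin1_bot hb ht]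
  | join s t ihs iht =>
    have hs := ihs ((Set.subset_union_left.trans Set.subset_union_left).trans h)
    have ht' := iht ((Set.subset_union_right.trans Set.subset_union_left).trans h)
    have ms := eval_mem_vals x s
    have mt := eval_mem_vals x t
    have es1 : s.eval x ∈ Set.range e := h (Or.inl (Or.inl ms.1))
    have es2 : oc (s.eval x) ∈ Set.range e := h (Or.inl (Or.inl ms.2))
    have et1 : t.eval x ∈ Set.range e := h (Or.inl (Or.inr mt.1))
    have et2 : oc (t.eval x) ∈ Set.range e := h (Or.inl (Or.inr mt.2))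
    refine ⟨?_, ?_⟩
    · show s.eval _ ⊔ t.eval _ = fin1 e (s.eval x ⊔ t.eval x)
      rw [hs.1, ht'.1, fin1_sup es1 et1 es2 et2 (h (Or.inr (Or.inl rfl))) (h (Or.inr (Or.inr rfl)))]
    · intro hg p hp
      rw [joins_join, List.mem_cons, List.mem_append] at hp
      rcases hp with rfl | hp | hp
      · have h3 := hg (s, t) (by rw [joins_join]; exact List.mem_cons_self)
        simp only at h3 ⊢
        rw [hs.1, ht'.1]
        rcases h3 with h3 | h3 | h3 | h3
        · left
          rw [h3, fin1_bot hb ht]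
        · right; left
          rw [h3, fin1_bot hb ht]
        · exact Or.inr (Or.inr (Or.inl h3))
        · right; right; right
          rw [← fin1_oc et1 et2, fin1_le es1 es2 (by rwa [oc_oc])]
          exact h3
      · exact hs.2 (fun q hq => hg q (by
          rw [joins_join]
          exact List.mem_cons_of_mem _ (List.mem_append_left _ hq))) p hp
      · exact ht'.2 (fun q hq => hg q (by
          rw [joins_join]
          exact List.mem_cons_of_mem _ (List.mem_append_right _ hq))) p hp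
  | meet s t ihs iht =>
    have hs := ihs ((Set.subset_union_left.trans Set.subset_union_left).trans h)
    have ht' := iht ((Set.subset_union_right.trans Set.subset_union_left).trans h)
    have ms := eval_mem_vals x s
    have mt := eval_mem_vals x t
    have es2 : oc (s.eval x) ∈ Set.range e := h (Or.inl (Or.inl ms.2))
    have et2 : oc (t.eval x) ∈ Set.range e := h (Or.inl (Or.inr mt.2))
    refine ⟨?_, ?_⟩
    · show s.eval _ ⊓ t.eval _ = fin1 e (s.eval x ⊓ t.eval x)
      rw [hs.1, ht'.1, fin1_inf es2 et2 (h (Or.inr (Or.inr rfl)))]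
    · intro hg p hp
      rw [joins_meet, List.mem_append] at hp
      rcases hp with hp | hp
      · exact hs.2 (fun q hq => hg q (by
          rw [joins_meet]
          exact List.mem_append_left _ hq)) p hp
      · exact ht'.2 (fun q hq => hg q (by
          rw [joins_meet]
          exact List.mem_append_right _ hq)) p hp

/-- the gap theorem for arbitrary ortholattices -/
theorem exists_finite_oml' {L : Type u} [OrthoLattice L] (x : ℕ → L) (t : Nnf)
    (h : Good x t) (h0 : t.eval x ≠ ⊥) : ∃ (N : Type) (_ : OrthoLattice N) (_ : Finite N),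
      IsOML N ∧ ∃ y : ℕ → N, t.eval y ≠ ⊥ := by
  classical
  have hfin : (vals x t ∪ {⊥, ⊤}).Finite := (vals_finite x t).union (Set.toFinite _)
  obtain ⟨n, e, -, he⟩ : ∃ (n : ℕ) (e : Fin n → L), Function.Injective e ∧
      Set.range e = vals x t ∪ {⊥, ⊤} := by
    have := hfin.fin_embedding
    obtain ⟨n, f, hf⟩ := this
    exact ⟨n, f, f.injective, hf⟩
  have hb : (⊥ : L) ∈ Set.range e := by
    rw [he]
    exact Or.inr (Or.inl rfl)
  have ht : (⊤ : L) ∈ Set.range e := by
    rw [he]
    exact Or.inr (Or.inr rfl)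
  have hsub : vals x t ⊆ Set.range e := by
    rw [he]
    exact Set.subset_union_left
  obtain ⟨h1, h2⟩ := fin1_eval hb ht x t hsub
  refine exists_finite_oml (M := (finSpace e).Cl) (fun k => fin1 e (x k)) t (h2 h) ?_
  rw [h1]
  intro h3
  apply h0
  have m := eval_mem_vals x t
  have h4 : fin1 e (t.eval x) ≤ fin1 e ⊥ := by
    rw [h3]
    exact bot_le
  rw [fin1_le (hsub m.1) (hsub m.2) (by rwa [oc_bot])] at h4
  exact le_bot_iff.mp h4

/-! ### Products -/

instance prodOL (L : Type u) (K : Type u) [OrthoLattice L] [OrthoLattice K] :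
    OrthoLattice (L × K) where
  oc p := (oc p.1, oc p.2)
  oc_oc p := Prod.ext (oc_oc _) (oc_oc _)
  oc_anti a b h := ⟨oc_anti _ _ h.1, oc_anti _ _ h.2⟩
  inf_oc p := Prod.ext (inf_oc _) (inf_oc _)
  sup_oc p := Prod.ext (sup_oc _) (sup_oc _)

lemma eval_prod {L : Type u} {K : Type u} [OrthoLattice L] [OrthoLattice K] (x : ℕ → L) (y : ℕ → K)
    (t : Nnf) : t.eval (fun n => ((x n, y n) : L × K)) = (t.eval x, t.eval y) := by
  induction t with
  | pos n => rfl
  | neg n => rfl
  | zero => rfl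
  | one => rfl
  | join s t ihs iht =>
    show s.eval _ ⊔ t.eval _ = _
    rw [ihs, iht]
    rfl
  | meet s t ihs iht =>
    show s.eval _ ⊓ t.eval _ = _
    rw [ihs, iht]
    rfl

/-- one ortholattice for finitely many pairs of terms which are not always orthogonal -/
lemma exists_generic (l : List (Nnf × Nnf)) (t : Nnf)
    (ht : ∃ (L : Type u) (_ : OrthoLattice L) (x : ℕ → L), t.eval x ≠ ⊥) :
    ∃ (L : Type u) (_ : OrthoLattice L) (x : ℕ → L), t.eval x ≠ ⊥ ∧
      ∀ p ∈ l, (∃ (K : Type u) (_ : OrthoLattice K) (y : ℕ → K),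
        ¬ p.1.eval y ≤ oc (p.2.eval y)) → ¬ p.1.eval x ≤ oc (p.2.eval x) := by
  induction l with
  | nil =>
    obtain ⟨L, hL, x, hx⟩ := ht
    exact ⟨L, hL, x, hx, fun p hp => absurd hp (List.not_mem_nil)⟩
  | cons q l ih =>
    obtain ⟨L, hL, x, hx, hl⟩ := ih
    by_cases hq : ∃ (K : Type u) (_ : OrthoLattice K) (y : ℕ → K), ¬ q.1.eval y ≤ oc (q.2.eval y)
    · obtain ⟨K, hK, y, hy⟩ := hq
      refine ⟨L × K, inferInstance, fun n => (x n, y n), ?_, ?_⟩
      · rw [eval_prod]
        intro h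
        exact hx (congrArg Prod.fst h)
      · intro p hp hex
        rw [eval_prod, eval_prod]
        intro h
        rcases List.mem_cons.mp hp with rfl | hp
        · exact hy h.2
        · exact hl p hp hex h.1
    · refine ⟨L, hL, x, hx, ?_⟩
      intro p hp hex
      rcases List.mem_cons.mp hp with rfl | hp
      · exact absurd hex hq
      · exact hl p hp hex

/-- Let `t` be a term in negation normal form without orthogonal joins. If `t` is `0` in every finite orthomodular
lattice, then `t` is `0` in every ortholattice. -/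
theorem nnf_main (t : Nnf) (ht : Nnf.NoOrthogonalJoin.{u} t)
    (hfin : ∀ (N : Type) [OrthoLattice N] [Finite N], IsOML N → ∀ x : ℕ → N, t.eval x = ⊥)
    (L : Type u) [OrthoLattice L] (x : ℕ → L) : t.eval x = ⊥ := by
  by_contra hne
  obtain ⟨K, hK, y, hy, hl⟩ := exists_generic.{u} t.joins t ⟨L, inferInstance, x, hne⟩
  have hgood : Good y t := by
    intro p hp
    rcases ht p hp with h | h | h | h
    · exact Or.inr (Or.inr (Or.inr (hl p hp h)))
    · exact Or.inl (h K y)
    · exact Or.inr (Or.inl (h K y))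
    · exact Or.inr (Or.inr (Or.inl h))
  obtain ⟨N, hN, hN', hO, z, hz⟩ := exists_finite_oml' y t hgood hy
  exact hz (hfin N hO z)

end Pool.Agent.Lib.MP_638764_al
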